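import Mathlib

namespace Pool.Agent.Results.MP_2aae10_lc.PFilter

open Set Filter Topology Metric

/-- a proper filter on `ℕ` containing the cofinite sets, which is a P-filter and is not meager
as a subset of the Cantor space -/
def NonmeagerPFilter (F : Filter ℕ) : Prop :=
  F ≠ ⊥ ∧ F ≤ cofinite ∧
    (∀ a : ℕ → Set ℕ, (∀ k, a k ∈ F) → ∃ b ∈ F, ∀ k, (b \ a k).Finite) ∧
    ¬ IsMeagre {s : ℕ → Bool | {n | s n = true} ∈ F}

lemma gaps {F : Filter ℕ} (hF : ¬ IsMeagre {s : ℕ → Bool | {n | s n = true} ∈ F}) (g : ℕ → ℕ) :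
    ∃ b ∈ F, ∀ N, ∃ t ≥ N, ∀ n ∈ b, t ≤ n → g t ≤ n := by
  by_contra h
  push Not at h
  apply hF
  have key : ∀ N, IsMeagre {s : ℕ → Bool | ∀ t ≥ N, ∃ n, s n = true ∧ t ≤ n ∧ n < g t} := by
    intro N
    refine IsNowhereDense.isMeagre (isClosed_isNowhereDense_iff_compl.2 ⟨?_, ?_⟩).2
    · rw [isOpen_compl_iff]
      simp only [ofPred_forall]
      refine isClosed_iInter fun t => isClosed_iInter fun _ => ?_
      have : {s : ℕ → Bool | ∃ n, s n = true ∧ t ≤ n ∧ n < g t} = ⋃ n ∈ Ico t (g t), {s | s n = true} := by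
        ext s; simp only [mem_ofPred_eq, mem_iUnion, mem_Ico, exists_prop]
        exact ⟨fun ⟨n, a, b⟩ => ⟨n, b, a⟩, fun ⟨n, a, b⟩ => ⟨n, b, a⟩⟩
      rw [this]
      exact (finite_Ico _ _).isClosed_biUnion fun n _ => isClosed_eq (continuous_apply n) continuous_const
    · intro s
      refine mem_closure_of_tendsto (f := fun m n => if n < m then s n else false) (b := atTop)
        (tendsto_pi_nhds.2 fun n => tendsto_const_nhds.congr' ((eventually_gt_atTop n).mono fun m hm => by simp [hm]))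
        (Eventually.of_forall fun m hm => ?_)
      obtain ⟨n, h1, h2, -⟩ := hm (m + N) (by omega)
      simp only at h1
      rw [if_neg (by omega)] at h1
      exact Bool.false_ne_true h1
  refine (isMeagre_iUnion key).mono fun s hs => ?_
  obtain ⟨N, hN⟩ := h _ hs
  exact mem_iUnion.2 ⟨N, hN⟩

variable {X : Type} [MetricSpace X] [CompleteSpace X]

lemma nested (q : ℕ → X) (ρ : ℕ → ℝ) (h0 : ∀ k, 0 < ρ k) (h1 : ∀ k, ρ (k + 1) ≤ ρ k / 2)
    (h2 : ∀ k, closedBall (q (k + 1)) (ρ (k + 1)) ⊆ closedBall (q k) (ρ k)) :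
    ∃ x, Tendsto q atTop (𝓝 x) ∧ ∀ k, x ∈ closedBall (q k) (ρ k) := by
  have h3 : ∀ k, ρ k ≤ ρ 0 * (1 / 2) ^ k := by
    intro k
    induction k with
    | zero => simp
    | succ k ih => rw [pow_succ]; linarith [h1 k]
  have h4 : CauchySeq q := cauchySeq_of_le_geometric (1 / 2) (ρ 0) (by norm_num) fun k => by
    rw [dist_comm]; exact (h2 k (mem_closedBall_self (h0 _).le)).trans (h3 k)
  obtain ⟨x, hx⟩ := cauchySeq_tendsto_of_complete h4
  have h5 : Antitone fun k => closedBall (q k) (ρ k) := antitone_nat_of_succ_le h2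
  exact ⟨x, hx, fun k => isClosed_closedBall.mem_of_tendsto hx ((eventually_ge_atTop k).mono fun m hm =>
    h5 hm (mem_closedBall_self (h0 _).le))⟩

lemma baire {F : Filter ℕ} (hF : NonmeagerPFilter F) (G : ℕ → Set X) (hG : ∀ n, IsOpen (G n))
    (C : Set {x | {n | x ∈ G n} ∈ F}) (hC : IsClosed C) : BaireSpace C := by
  refine ⟨fun f fo fd => dense_iff_inter_open.2 fun W hW ⟨q0, hq0⟩ => ?_⟩
  obtain ⟨ρ0, r0, r1⟩ := Metric.nhds_basis_closedBall.mem_iff.1 (hW.mem_nhds hq0)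
  have step : ∀ (k t : ℕ) (s : C × ℝ), ∃ s' : C × ℝ, 0 < s.2 → 0 < s'.2 ∧ s'.2 ≤ s.2 / 2 ∧
      closedBall s'.1.1.1 s'.2 ⊆ closedBall s.1.1.1 s.2 ∧
      (∀ n < t, s.1.1.1 ∈ G n → closedBall s'.1.1.1 s'.2 ⊆ G n) ∧ closedBall s'.1 s'.2 ⊆ f k := by
    intro k t s
    by_cases hs : 0 < s.2
    swap
    · exact ⟨s, fun h => absurd h hs⟩
    have hO : IsOpen (ball s.1.1.1 s.2 ∩ ⋂ n ∈ {n | n < t ∧ s.1.1.1 ∈ G n}, G n) :=
      isOpen_ball.inter (((finite_lt_nat t).subset fun n hn => hn.1).isOpen_biInter fun n _ => hG n)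
    obtain ⟨q, q1, q2⟩ := (fd k).inter_open_nonempty _
      (hO.preimage (f := fun z : C => z.1.1) (continuous_subtype_val.comp continuous_subtype_val))
      ⟨s.1, mem_ball_self hs, mem_iInter₂.2 fun n hn => hn.2⟩
    obtain ⟨a, a0, a1⟩ := Metric.nhds_basis_closedBall.mem_iff.1 (hO.mem_nhds q1)
    obtain ⟨b, b0, b1⟩ := Metric.nhds_basis_closedBall.mem_iff.1 ((fo k).mem_nhds q2)
    have e : closedBall q.1.1 (min (min a b) (s.2 / 2)) ⊆ closedBall q.1.1 a :=
      closedBall_subset_closedBall ((min_le_left _ _).trans (min_le_left _ _))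
    exact ⟨(q, min (min a b) (s.2 / 2)), fun _ => ⟨by positivity, min_le_right _ _,
      fun z hz => ball_subset_closedBall (a1 (e hz)).1, fun n h1 h2 z hz => mem_iInter₂.1 (a1 (e hz)).2 n ⟨h1, h2⟩,
      (closedBall_subset_closedBall ((min_le_left _ _).trans (min_le_right _ _))).trans b1⟩⟩
  choose nx hnx using step
  let st : List ℕ → C × ℝ := fun l => List.rec (q0, ρ0) (fun t l s => nx l.length t s) l
  have st0 : ∀ l, 0 < (st l).2 := by
    intro l
    induction l with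
    | nil => exact r0
    | cons t l ih => exact (hnx _ t _ ih).1
  obtain ⟨a, ha, ha'⟩ := hF.2.2.1 (fun c => {n | (st (Denumerable.ofNat (List ℕ) c)).1.1.1 ∈ G n}) fun c =>
    (st _).1.1.2
  have hN : ∀ l : List ℕ, ∃ N, ∀ n ≥ N, n ∈ a → (st l).1.1.1 ∈ G n := by
    intro l
    obtain ⟨N, hN⟩ := (ha' (Encodable.encode l)).bddAbove
    refine ⟨N + 1, fun n hn h => ?_⟩
    by_contra hc
    have := hN ⟨h, by simpa using hc⟩
    omega
  choose N hN using hN
  obtain ⟨b, hb, hb'⟩ := gaps hF.2.2.2 fun t =>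
    (Finset.range (t + 1)).sup fun c => N (t :: Denumerable.ofNat (List ℕ) c)
  choose T T1 T2 using hb'
  let τ : List ℕ → ℕ := fun l => T (Encodable.encode l + l.length + 1)
  let L : ℕ → List ℕ := fun k => Nat.rec [] (fun _ l => τ l :: l) k
  have L1 : ∀ k, (L k).length = k := by
    intro k
    induction k with
    | zero => rfl
    | succ k ih => exact congrArg (· + 1) ih
  have H := fun k => hnx (L k).length (τ (L k)) _ (st0 (L k))
  obtain ⟨x, x1, x2⟩ := nested (fun k => (st (L k)).1.1.1) (fun k => (st (L k)).2) (fun k => st0 _)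
    (fun k => (H k).2.1) fun k => (H k).2.2.1
  have hx : {n | x ∈ G n} ∈ F := by
    have h1 : ∀ᶠ n in F, N [] ≤ n := hF.2.1 (by rw [Nat.cofinite_eq_atTop]; exact eventually_ge_atTop _)
    filter_upwards [ha, hb, h1] with n n1 n2 n3
    have key : ∀ k, N (L k) ≤ n ∨ x ∈ G n → N (L (k + 1)) ≤ n ∧ k < n ∨ x ∈ G n := by
      rintro k (h | h)
      · by_cases h2 : n < τ (L k)
        · exact Or.inr ((H k).2.2.2.1 n h2 (hN _ n h n1) (x2 (k + 1)))
        · have t1 := T1 (Encodable.encode (L k) + (L k).length + 1)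
          have t2 := T2 (Encodable.encode (L k) + (L k).length + 1) n n2 (not_lt.1 h2)
          have t3 := L1 k
          refine Or.inl ⟨le_trans ?_ t2, by simp only [τ] at h2; omega⟩
          have := Finset.le_sup (f := fun c => N (τ (L k) :: Denumerable.ofNat (List ℕ) c))
            (Finset.mem_range.2 (show Encodable.encode (L k) < τ (L k) + 1 by simp only [τ]; omega))
          simpa using this
      · exact Or.inr h
    have all : ∀ k, N (L k) ≤ n ∨ x ∈ G n := by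
      intro k
      induction k with
      | zero => exact Or.inl n3
      | succ k ih => exact (key k ih).imp_left fun h => h.1
    exact (key n (all n)).resolve_left fun h => lt_irrefl _ h.2
  have hxC : (⟨x, hx⟩ : {x | {n | x ∈ G n} ∈ F}) ∈ C :=
    hC.mem_of_tendsto (f := fun k => (st (L k)).1.1) (tendsto_subtype_rng.2 x1)
      (Eventually.of_forall fun k => (st (L k)).1.2)
  refine ⟨⟨_, hxC⟩, r1 (x2 0), mem_iInter.2 fun k => ?_⟩
  have : (⟨_, hxC⟩ : C) ∈ f (L k).length := (H k).2.2.2.2 (x2 (k + 1))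
  rwa [L1] at this

def Sh (V U : ℕ → X × ℝ) : Prop :=
  ∀ i, 0 < (V i).2 ∧ (V i).2 ≤ (U i).2 ∧ closedBall (V i).1 (V i).2 ⊆ closedBall (U i).1 (U i).2

omit [CompleteSpace X] in
lemma task {m : ℕ} {O : Set (Fin m → X)} (ho : IsOpen O) (hd : Dense O) {σ : Fin m → ℕ}
    (hσ : Function.Injective σ) (U : ℕ → X × ℝ) (hU : ∀ i, 0 < (U i).2) :
    ∃ V, Sh V U ∧ ∀ f : Fin m → X, (∀ i, f i ∈ closedBall (V (σ i)).1 (V (σ i)).2) → f ∈ O := by
  have hB : IsOpen (univ.pi fun i => ball (U (σ i)).1 (U (σ i)).2) := isOpen_set_pi finite_univ fun _ _ => isOpen_ball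
  obtain ⟨y, y1, y2⟩ := hd.inter_open_nonempty _ hB ⟨fun i => (U (σ i)).1, fun i _ => mem_ball_self (hU _)⟩
  obtain ⟨ε, e0, e1⟩ := Metric.nhds_basis_closedBall.mem_iff.1 (ho.mem_nhds y2)
  have : ∀ i, ∃ r > 0, r ≤ ε ∧ r ≤ (U (σ i)).2 ∧ closedBall (y i) r ⊆ closedBall (U (σ i)).1 (U (σ i)).2 := by
    intro i
    obtain ⟨a, a0, a1⟩ := Metric.nhds_basis_closedBall.mem_iff.1 (isOpen_ball.mem_nhds (y1 i trivial))
    have := hU (σ i)
    exact ⟨min (min a ε) (U (σ i)).2, by positivity, (min_le_left _ _).trans (min_le_right _ _), min_le_right _ _,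
      ((closedBall_subset_closedBall ((min_le_left _ _).trans (min_le_left _ _))).trans a1).trans
        ball_subset_closedBall⟩
  choose r r0 r1 r2 r3 using this
  refine ⟨Function.extend σ (fun i => (y i, r i)) U, fun k => ?_, fun f hf => e1 ?_⟩
  · by_cases h : ∃ i, σ i = k
    · obtain ⟨i, rfl⟩ := h
      rw [hσ.extend_apply]; exact ⟨r0 i, r2 i, r3 i⟩
    · rw [Function.extend_apply' _ _ _ h]; exact ⟨hU k, le_rfl, subset_rfl⟩
  · refine (dist_pi_le_iff e0.le).2 fun i => ?_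
    have := hf i
    rw [hσ.extend_apply] at this
    exact le_trans this (r1 i)

omit [CompleteSpace X] in
lemma tasks {ι : Type} (P : ι → (ℕ → X × ℝ) → Prop) (h1 : ∀ i V U, Sh V U → P i U → P i V)
    (h2 : ∀ i U, (∀ k, 0 < (U k).2) → ∃ V, Sh V U ∧ P i V) {T : Set ι} (hT : T.Finite)
    (U : ℕ → X × ℝ) (hU : ∀ i, 0 < (U i).2) : ∃ V, Sh V U ∧ ∀ i ∈ T, P i V := by
  induction T, hT using Set.Finite.induction_on with
  | empty => exact ⟨U, fun i => ⟨hU i, le_rfl, subset_rfl⟩, by simp⟩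
  | @insert a s _ _ ih =>
    obtain ⟨V, v1, v2⟩ := ih
    obtain ⟨V', w1, w2⟩ := h2 a V fun k => (v1 k).1
    refine ⟨V', fun k => ⟨(w1 k).1, (w1 k).2.1.trans (v1 k).2.1, (w1 k).2.2.trans (v1 k).2.2⟩, ?_⟩
    rintro i (rfl | hi)
    exacts [w2, h1 i _ _ w1 (v2 i hi)]

lemma main [TopologicalSpace.SeparableSpace X] [Nonempty X] {F : Filter ℕ} (hF : NonmeagerPFilter F)
    (n : ℕ → ℕ) (R : ∀ k : ℕ, Set (Fin (n k) → X)) (hR : ∀ k, IsMeagre (R k)) :
    ∃ A : Set X, Dense A ∧ (∀ C : Set A, IsClosed C → BaireSpace C) ∧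
      ∀ (k : ℕ) (f : Fin (n k) → X), Function.Injective f → (∀ i, f i ∈ A) → f ∉ R k := by
  have hO : ∀ k, ∃ O : ℕ → Set (Fin (n k) → X), (∀ r, IsOpen (O r) ∧ Dense (O r)) ∧ ∀ f, (∀ r, f ∈ O r) → f ∉ R k := by
    intro k
    obtain ⟨S, s1, s2, s3, s4⟩ := mem_residual_iff.1 (hR k)
    obtain ⟨O, hO⟩ := (s3.insert univ).exists_eq_range (insert_nonempty _ _)
    refine ⟨O, fun r => ?_, fun f hf => s4 fun t ht => ?_⟩
    · rcases (hO ▸ mem_range_self r : O r ∈ insert univ S) with h | h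
      · rw [h]; exact ⟨isOpen_univ, dense_univ⟩
      · exact ⟨s1 _ h, s2 _ h⟩
    · obtain ⟨r, rfl⟩ : t ∈ range O := hO ▸ mem_insert_of_mem _ ht
      exact hf r
  choose O O1 O2 using hO
  let P : (Σ k, ℕ × (Fin (n k) → ℕ)) → (ℕ → X × ℝ) → Prop := fun τ V => Function.Injective τ.2.2 →
    ∀ f : Fin (n τ.1) → X, (∀ i, f i ∈ closedBall (V (τ.2.2 i)).1 (V (τ.2.2 i)).2) → f ∈ O τ.1 τ.2.1
  have hT : ∀ m : ℕ, (⋃ k ∈ Iic m, Sigma.mk (β := fun k => ℕ × (Fin (n k) → ℕ)) k ''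
      (Iic m ×ˢ {σ | ∀ i, σ i ∈ Iic m})).Finite := fun m =>
    (finite_Iic m).biUnion fun k _ => ((finite_Iic m).prod (Finite.pi' fun _ => finite_Iic m)).image _
  have step : ∀ (m : ℕ) (U : {U : ℕ → X × ℝ // ∀ i, 0 < (U i).2}), ∃ V : {U : ℕ → X × ℝ // ∀ i, 0 < (U i).2},
      (∀ i, (V.1 i).2 ≤ (U.1 i).2 / 2 ∧ closedBall (V.1 i).1 (V.1 i).2 ⊆ ball (U.1 i).1 (U.1 i).2) ∧
      ∀ k ≤ m, ∀ r ≤ m, ∀ σ, (∀ i, σ i ≤ m) → P ⟨k, r, σ⟩ V.1 := by
    intro m U
    obtain ⟨V, v1, v2⟩ := tasks P (fun τ V U h hP hi f hf => hP hi f fun i => (h _).2.2 (hf i))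
      (fun τ U hU => by
        by_cases h : Function.Injective τ.2.2
        · obtain ⟨V, a, b⟩ := task (O1 τ.1 τ.2.1).1 (O1 τ.1 τ.2.1).2 h U hU
          exact ⟨V, a, fun _ => b⟩
        · exact ⟨U, fun i => ⟨hU i, le_rfl, subset_rfl⟩, fun h' => absurd h' h⟩)
      (hT m) (fun i => ((U.1 i).1, (U.1 i).2 / 2)) fun i => half_pos (U.2 i)
    exact ⟨⟨V, fun i => (v1 i).1⟩, fun i => ⟨(v1 i).2.1, (v1 i).2.2.trans
      (closedBall_subset_ball (half_lt_self (U.2 i)))⟩,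
      fun k hk r hr σ hσ => v2 _ (mem_biUnion hk ⟨(r, σ), ⟨hr, hσ⟩, rfl⟩)⟩
  choose nx n1 n2 using step
  obtain ⟨d, hd⟩ := TopologicalSpace.exists_dense_seq X
  let U : ℕ → {U : ℕ → X × ℝ // ∀ i, 0 < (U i).2} := fun m => Nat.rec
    ⟨fun i => (d (Nat.unpair i).1, 1 / (((Nat.unpair i).2 : ℝ) + 1)), fun i => Nat.one_div_pos_of_nat⟩ nx m
  have u1 : ∀ m i, ((U m).1 i).2 ≤ (1 / 2) ^ m := by
    intro m i
    induction m with
    | zero =>
      change 1 / (((Nat.unpair i).2 : ℝ) + 1) ≤ _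
      rw [pow_zero, div_le_one (by positivity)]; simp
    | succ m ih => rw [pow_succ]; linarith [(n1 m (U m) i).1]
  let G : ℕ → Set X := fun m => ⋃ i ∈ Iic m, ball ((U (m + 1)).1 i).1 ((U (m + 1)).1 i).2
  refine ⟨{x | {m | x ∈ G m} ∈ F}, Metric.dense_iff.2 fun x ε hε => ?_,
    baire hF G fun m => isOpen_biUnion fun _ _ => isOpen_ball, fun k f hf hA => O2 k f fun r => ?_⟩
  · obtain ⟨j, hj⟩ := exists_nat_one_div_lt (half_pos hε)
    obtain ⟨c, hc⟩ := hd.exists_dist_lt x (half_pos hε)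
    obtain ⟨y, -, hy⟩ := nested (fun m => ((U m).1 (Nat.pair c j)).1) (fun m => ((U m).1 (Nat.pair c j)).2)
      (fun m => (U m).2 _) (fun m => (n1 m _ _).1) fun m => (n1 m _ _).2.trans ball_subset_closedBall
    refine ⟨y, ?_, hF.2.1 ?_⟩
    · have : dist y (d (Nat.unpair (Nat.pair c j)).1) ≤ 1 / (((Nat.unpair (Nat.pair c j)).2 : ℝ) + 1) := hy 0
      rw [Nat.unpair_pair] at this
      rw [mem_ball]
      linarith [dist_triangle_right y x (d c)]
    · rw [Nat.cofinite_eq_atTop]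
      filter_upwards [eventually_ge_atTop (Nat.pair c j)] with m hm
      exact mem_biUnion hm ((n1 (m + 1) _ _).2 (hy (m + 2)))
  · have : F.NeBot := ⟨hF.1⟩
    have e1 : ∀ᶠ m in F, ∀ i, f i ∈ G m := eventually_all.2 hA
    have e2 : ∀ᶠ m in atTop, k ≤ m ∧ r ≤ m ∧ ∀ i j, i ≠ j → (1 / 2) ^ m < dist (f i) (f j) := by
      refine (eventually_ge_atTop k).and ((eventually_ge_atTop r).and (eventually_all.2 fun i =>
        eventually_all.2 fun j => ?_))
      by_cases h : i = j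
      · exact Eventually.of_forall fun _ h' => absurd h h'
      · exact ((tendsto_pow_atTop_nhds_zero_of_lt_one (r := (1 / 2 : ℝ)) (by norm_num) (by norm_num)).eventually
          (gt_mem_nhds (dist_pos.2 (hf.ne h)))).mono fun m hm _ => hm
    rw [← Nat.cofinite_eq_atTop] at e2
    obtain ⟨m, m1, m2, m3, m4⟩ := (e1.and (hF.2.1 e2)).exists
    choose σ s1 s2 using fun i => mem_iUnion₂.1 (m1 i)
    refine n2 m (U m) k m2 r m3 σ s1 (fun i j hij => ?_) f fun i => ball_subset_closedBall (s2 i)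
    by_contra hc
    have a1 := m4 i j hc
    have a2 := mem_ball.1 (s2 i)
    have a3 := mem_ball.1 (s2 j)
    have a4 := u1 (m + 1) (σ j)
    simp only at hij
    rw [hij] at a2
    rw [pow_succ] at a4
    linarith [dist_triangle_right (f i) (f j) ((U (m + 1)).1 (σ j)).1]

theorem result (h : ∃ F : Filter ℕ, NonmeagerPFilter F) (X : Type) [TopologicalSpace X] [PolishSpace X]
    (n : ℕ → ℕ) (R : ∀ k : ℕ, Set (Fin (n k) → X)) (hR : ∀ k, IsMeagre (R k)) :
    ∃ A : Set X, Dense A ∧ (∀ C : Set A, IsClosed C → BaireSpace C) ∧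
      ∀ (k : ℕ) (f : Fin (n k) → X), Function.Injective f → (∀ i, f i ∈ A) → f ∉ R k := by
  obtain ⟨F, hF⟩ := h
  cases isEmpty_or_nonempty X
  · refine ⟨univ, dense_univ, fun C _ => inferInstance, fun k f _ _ hf => ?_⟩
    exact not_isMeagre_of_isOpen (isOpen_discrete _) ⟨f, hf⟩ (hR k)
  · let _ := TopologicalSpace.upgradeIsCompletelyMetrizable X
    exact main hF n R hR

end Pool.Agent.Results.MP_2aae10_lc.PFilter
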